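import Pool.Agent.NA.Stmts

/-!
# NA, row LNC: congruence and composition of links
-/

set_option autoImplicit false

open Finset Filter Topology MeasureTheory

noncomputable section

namespace Pool.Agent.NA.H52

open Pool.Agent.BC Pool.Agent.NA

theorem lnc : LncStmt := by
  intro X _ _ C hC
  refine ⟨?_, ?_, ?_, ?_, ?_⟩
  · rintro z z' K K' P hz ⟨h1, h2, h3, h4, h5⟩
    have hS : ∀ (a : ℕ → ℝ) (i : ℕ), i ≤ K' → S z' a i = S z a i := by
      intro a i hi
      unfold S
      refine Finset.sum_congr rfl fun k hk => ?_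
      rw [hz k (lt_of_lt_of_le (Finset.mem_range.1 hk) hi)]
    refine ⟨h1, h2, fun k hk hk' => ?_, fun a => ?_, fun a i hi hi' => ?_⟩
    · rw [hz k hk']
      exact h3 k hk hk'
    · rw [hS a K h1, hS a K' le_rfl]
      exact h4 a
    · rw [hS a i hi', hS a K' le_rfl]
      exact h5 a i hi hi'
  · intro z K
    refine ⟨le_rfl, le_rfl, fun k hk hk' => absurd hk' (not_lt.2 hk), fun a => ?_,
      fun a i hi hi' => ?_⟩
    · rw [one_mul]
    · rw [le_antisymm hi' hi, mul_one]
      exact le_mul_of_one_le_left (norm_nonneg _) hC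
  · rintro z K K' P P' hP ⟨h1, h2, h3, h4, h5⟩
    refine ⟨h1, h2.trans hP, h3, fun a => ?_, fun a i hi hi' => ?_⟩
    · exact (h4 a).trans (mul_le_mul_of_nonneg_right hP (norm_nonneg _))
    · refine (h5 a i hi hi').trans (mul_le_mul_of_nonneg_right ?_ (norm_nonneg _))
      exact mul_le_mul_of_nonneg_left hP (by linarith)
  · rintro z K K' K'' P P' ⟨h1, h2, h3, h4, h5⟩ ⟨g1, g2, g3, g4, g5⟩
    have hP0 : 0 ≤ P := by linarith
    have hC0 : 0 ≤ C := by linarith
    refine ⟨h1.trans g1, ?_, fun k hk hk' => ?_, fun a => ?_, fun a i hi hi' => ?_⟩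
    · nlinarith
    · rcases lt_or_ge k K' with h | h
      · exact h3 k hk h
      · exact g3 k h hk'
    · calc ‖S z a K‖ ≤ P * ‖S z a K'‖ := h4 a
        _ ≤ P * (P' * ‖S z a K''‖) := mul_le_mul_of_nonneg_left (g4 a) hP0
        _ = P * P' * ‖S z a K''‖ := by ring
    · rcases le_total i K' with h | h
      · calc ‖S z a i‖ ≤ C * P * ‖S z a K'‖ := h5 a i hi h
          _ ≤ C * P * (P' * ‖S z a K''‖) :=
            mul_le_mul_of_nonneg_left (g4 a) (mul_nonneg hC0 hP0)
          _ = C * (P * P') * ‖S z a K''‖ := by ring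
      · calc ‖S z a i‖ ≤ C * P' * ‖S z a K''‖ := g5 a i h hi'
          _ ≤ P * (C * P' * ‖S z a K''‖) := by
            refine le_mul_of_one_le_left ?_ h2
            exact mul_nonneg (mul_nonneg hC0 (by linarith)) (norm_nonneg _)
          _ = C * (P * P') * ‖S z a K''‖ := by ring
  · intro z K P hP hz h
    have hmem : ∀ a : ℕ → ℝ, S z a K ∈ sp z K := by
      intro a
      unfold S sp
      refine Submodule.sum_mem _ fun k hk => Submodule.smul_mem _ _ ?_
      exact Submodule.subset_span ⟨k, Finset.mem_range.1 hk, rfl⟩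
    have hs : ∀ a : ℕ → ℝ, S z a (K + 1) = S z a K + a K • z K := by
      intro a
      unfold S
      rw [Finset.sum_range_succ]
    have h4 : ∀ a : ℕ → ℝ, ‖S z a K‖ ≤ P * ‖S z a (K + 1)‖ := by
      intro a
      rw [hs a]
      exact h _ (hmem a) (a K)
    refine ⟨Nat.le_succ K, hP, fun k hk hk' => ?_, h4, fun a i hi hi' => ?_⟩
    · rw [le_antisymm (Nat.lt_succ_iff.1 hk') hk]
      exact hz
    · have h0 : 0 ≤ P * ‖S z a (K + 1)‖ := mul_nonneg (by linarith) (norm_nonneg _)
      rcases eq_or_lt_of_le hi' with rfl | hlt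
      · calc ‖S z a (K + 1)‖ ≤ P * ‖S z a (K + 1)‖ := le_mul_of_one_le_left (norm_nonneg _) hP
          _ ≤ C * (P * ‖S z a (K + 1)‖) := le_mul_of_one_le_left h0 hC
          _ = C * P * ‖S z a (K + 1)‖ := by ring
      · have hiK : i = K := le_antisymm (Nat.lt_succ_iff.1 hlt) hi
        rw [hiK]
        calc ‖S z a K‖ ≤ P * ‖S z a (K + 1)‖ := h4 a
          _ ≤ C * (P * ‖S z a (K + 1)‖) := le_mul_of_one_le_left h0 hC
          _ = C * P * ‖S z a (K + 1)‖ := by ring

end Pool.Agent.NA.H52
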